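import Pool.Agent.Work.MP_a60482_ind_h42.Inv

/-!
One rational cycle for `Λ`.
-/

open CategoryTheory MonoidalCategory CartesianMonoidalCategory

universe u v w x y z

namespace Pool.KC

variable {V : Type u} [Category.{v} V] [CartesianMonoidalCategory V]

theorem WeilTheory.act_snd_mul42 {K : Type x} [Field K] (T : WeilTheory.{u, v, w, x} V K)
    {X Y : V} {k : ℕ} {e : T.H Y} (he : e ∈ T.deg Y (2 * k)) (z : T.H (X ⊗ Y)) (a : T.H X) :
    T.act (T.pull (snd X Y) e * z) a = e * T.act z a := by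
  rw [T.act_apply, T.act_apply, ← mul_assoc, ← T.even_comm (T.snd_deg he), mul_assoc,
    T.push_snd_mul]

variable {Z : CycleTheory.{u, v, y} V}
  {ι : Type z} {K : ι → Type x} [∀ l, Field (K l)] {T : ∀ l, WeilTheory.{u, v, w, x} V (K l)}
  (c : ∀ l, CycleClass Z (T l))

include c in
theorem exists_act_comp {X : V} {i j k : ℕ} (b : Z.Z (X ⊗ X) i) (a : Z.Z (X ⊗ X) j)
    (hk : i + j = Z.dim X + k) :
    ∃ d : Z.Z (X ⊗ X) k, ∀ l, ∀ v : (T l).H X, (T l).act ((c l).cl (X ⊗ X) k d) v =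
      (T l).act ((c l).cl (X ⊗ X) j a) ((T l).act ((c l).cl (X ⊗ X) i b) v) := by
  obtain ⟨m, hm⟩ := exists_cast c hk
    (Z.mul (Z.pull (lift (snd X (X ⊗ X) ≫ fst X X) (fst X (X ⊗ X))) b)
      (Z.pull (lift (fst X (X ⊗ X)) (snd X (X ⊗ X) ≫ snd X X)) a))
  refine ⟨Z.push X (X ⊗ X) k m, fun l v => ?_⟩
  have h1 : (c l).cl (X ⊗ X) k (Z.push X (X ⊗ X) k m) =
      (T l).comp ((c l).cl (X ⊗ X) i b) ((c l).cl (X ⊗ X) j a) := by
    rw [(c l).cl_push, hm, (c l).cl_mul, (c l).cl_pull, (c l).cl_pull]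
    rfl
  rw [h1, (T l).act_comp, LinearMap.comp_apply]

include c in
theorem exists_act_snd {X : V} (ξ : Z.Z X 1) {i : ℕ} (k : ℕ) (b : Z.Z (X ⊗ X) i) :
    ∃ d : Z.Z (X ⊗ X) (k + i), ∀ l, ∀ v : (T l).H X, (T l).act ((c l).cl _ _ d) v =
      (c l).cl X 1 ξ ^ k * (T l).act ((c l).cl _ _ b) v := by
  rcases k with _ | k
  · obtain ⟨d, hd⟩ := exists_cast c (zero_add i).symm b
    refine ⟨d, fun l v => ?_⟩
    rw [hd l, pow_zero, one_mul]
  · obtain ⟨e, he⟩ := exists_pow c ξ k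
    refine ⟨Z.mul (Z.pull (snd X X) e) b, fun l v => ?_⟩
    have hdeg : (c l).cl X (k + 1) e ∈ (T l).deg X (2 * (k + 1)) :=
      (T l).C_deg _ _ (by
        rw [← (c l).span_cl]
        exact Submodule.subset_span ⟨e, rfl⟩)
    rw [(c l).cl_mul, (c l).cl_pull, (T l).act_snd_mul42 hdeg, he l]

include c in
theorem exists_lam {X : V} (ξ : Z.Z X 1)
    (hπ : ∀ m : ℕ, ∃ p : Z.Z (X ⊗ X) (Z.dim X), ∀ l,
      (∀ a ∈ (T l).deg X m, (T l).act ((c l).cl _ _ p) a = a) ∧
      ∀ m' ≠ m, ∀ a ∈ (T l).deg X m', (T l).act ((c l).cl _ _ p) a = 0)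
    (hθ : ∀ i k : ℕ, i + k = Z.dim X → ∃ t : Z.Z (X ⊗ X) i, ∀ l, ∀ a ∈ (T l).deg X i,
      (T l).act ((c l).cl _ _ t) ((c l).cl X 1 ξ ^ k * a) = a) :
    ∃ d : Z.Z (X ⊗ X) (Z.dim X - 1), ∀ l, ∀ (i : ℕ) (y : (T l).H X),
      (i ≤ (T l).dim X ∧ y ∈ (T l).deg X i ∧ (c l).cl X 1 ξ ^ ((T l).dim X - i + 1) * y = 0) →
      (T l).act ((c l).cl _ _ d) y = 0 ∧ ∀ j : ℕ, i + (j + 1) ≤ (T l).dim X →
        (T l).act ((c l).cl _ _ d) ((c l).cl X 1 ξ ^ (j + 1) * y) = (c l).cl X 1 ξ ^ j * y := by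
  have hdim : ∀ l, (T l).dim X = Z.dim X := fun l => ((c l).dim_eq X).symm
  simp only [hdim]
  have hξ : ∀ l, (c l).cl X 1 ξ ∈ (T l).deg X (2 * 1) := fun l =>
    (T l).C_deg _ _ (by
      rw [← (c l).span_cl]
      exact Submodule.subset_span ⟨ξ, rfl⟩)
  have hpow : ∀ l k, (c l).cl X 1 ξ ^ k ∈ (T l).deg X (2 * k) := by
    intro l k
    induction k with
    | zero => rw [pow_zero]; exact (T l).one_deg
    | succ k ih =>
      rw [pow_succ]
      have h1 := (T l).mul_deg ih (hξ l)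
      rwa [show 2 * k + 2 * 1 = 2 * (k + 1) by ring] at h1
  have hpd : ∀ l (k m i : ℕ) (a : (T l).H X), a ∈ (T l).deg X i → 2 * k + i = m →
      (c l).cl X 1 ξ ^ k * a ∈ (T l).deg X m := by
    intro l k m i a ha hm
    subst hm
    exact (T l).mul_deg (hpow l k) ha
  have hact0 : ∀ l (i : ℕ) (v : (T l).H X),
      (T l).act ((c l).cl (X ⊗ X) i (0 : Z.Z (X ⊗ X) i)) v = 0 := by
    intro l i v
    rw [map_zero, (T l).act_zero]
    rfl
  rcases Nat.eq_zero_or_pos (Z.dim X) with hn | hn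
  · refine ⟨0, fun l i y hy => ⟨hact0 l _ y, fun j hj => by omega⟩⟩
  have hW : ∀ m : ℕ, ∃ w : Z.Z (X ⊗ X) (Z.dim X - 1), ∀ l,
      (∀ m' : ℕ, m' ≠ m → ∀ a ∈ (T l).deg X m', (T l).act ((c l).cl _ _ w) a = 0) ∧
      (∀ (i j : ℕ) (y : (T l).H X), y ∈ (T l).deg X i →
        (c l).cl X 1 ξ ^ (Z.dim X - i + 1) * y = 0 → i + 2 * (j + 1) = m →
        i + (j + 1) ≤ Z.dim X →
        (T l).act ((c l).cl _ _ w) ((c l).cl X 1 ξ ^ (j + 1) * y) = (c l).cl X 1 ξ ^ j * y) ∧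
      ∀ y ∈ (T l).deg X m, m ≤ Z.dim X → (c l).cl X 1 ξ ^ (Z.dim X - m + 1) * y = 0 →
        (T l).act ((c l).cl _ _ w) y = 0 := by
    intro m
    obtain ⟨p, hp⟩ := hπ m
    by_cases h2 : 2 ≤ m
    · by_cases hmn : m ≤ Z.dim X
      · obtain ⟨t, ht⟩ := hθ (m - 2) (Z.dim X - m + 2) (by omega)
        obtain ⟨q, hq⟩ := exists_act_snd c ξ (Z.dim X - m + 1) p
        obtain ⟨w, hw⟩ := exists_act_comp c (k := Z.dim X - 1) q t (by omega)
        refine ⟨w, fun l => ⟨?_, ?_, ?_⟩⟩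
        · intro m' hm' a ha
          rw [hw l, hq l, (hp l).2 m' hm' a ha, mul_zero, map_zero]
        · intro i j y hy _ hij hij2
          have hd := hpd l (j + 1) m i y hy (by omega)
          rw [hw l, hq l, (hp l).1 _ hd, ← mul_assoc, ← pow_add,
            show Z.dim X - m + 1 + (j + 1) = Z.dim X - m + 2 + j by omega, pow_add, mul_assoc]
          exact ht l _ (hpd l j (m - 2) i y hy (by omega))
        · intro y hy _ hy0
          rw [hw l, hq l, (hp l).1 _ hy, hy0, map_zero]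
      · by_cases hm2 : m ≤ 2 * Z.dim X
        · obtain ⟨t, ht⟩ := hθ (2 * Z.dim X - m) (m - Z.dim X) (by omega)
          obtain ⟨q, hq⟩ := exists_act_comp c (k := 2 * Z.dim X - m) p t (by omega)
          obtain ⟨r, hr⟩ := exists_act_snd c ξ (m - Z.dim X - 1) q
          obtain ⟨w, hw⟩ := exists_cast c
            (by omega : m - Z.dim X - 1 + (2 * Z.dim X - m) = Z.dim X - 1) r
          have hww : ∀ l (v : (T l).H X), (T l).act ((c l).cl _ _ w) v =
              (c l).cl X 1 ξ ^ (m - Z.dim X - 1) *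
                (T l).act ((c l).cl _ _ t) ((T l).act ((c l).cl _ _ p) v) := by
            intro l v
            rw [hw l, hr l, hq l]
          refine ⟨w, fun l => ⟨?_, ?_, ?_⟩⟩
          · intro m' hm' a ha
            rw [hww l, (hp l).2 m' hm' a ha, map_zero, mul_zero]
          · intro i j y hy _ hij hij2
            have hd := hpd l (j + 1) m i y hy (by omega)
            have hs := hpd l (Z.dim X - i - j - 1) (2 * Z.dim X - m) i y hy (by omega)
            have he : (c l).cl X 1 ξ ^ (j + 1) * y = (c l).cl X 1 ξ ^ (m - Z.dim X) *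
                ((c l).cl X 1 ξ ^ (Z.dim X - i - j - 1) * y) := by
              rw [← mul_assoc, ← pow_add]
              congr 2
              omega
            rw [hww l, (hp l).1 _ hd, he, ht l _ hs, ← mul_assoc, ← pow_add]
            congr 2
            omega
          · intro y hy h1
            omega
        · refine ⟨0, fun l => ⟨fun _ _ a _ => hact0 l _ a, ?_, ?_⟩⟩
          · intro i j y _ _ h1 h2
            omega
          · intro y hy h1
            omega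
    · refine ⟨0, fun l => ⟨fun _ _ a _ => hact0 l _ a, ?_, ?_⟩⟩
      · intro i j y _ _ h1 h2
        omega
      · intro y hy _ _
        exact hact0 l _ y
  choose w hw using hW
  have hsum : ∀ l, ∀ m ≤ 2 * Z.dim X, ∀ a ∈ (T l).deg X m,
      (T l).act ((c l).cl _ _ (∑ m ∈ Finset.range (2 * Z.dim X + 1), w m)) a =
        (T l).act ((c l).cl _ _ (w m)) a := by
    intro l m hm a ha
    rw [map_sum, ← (T l).actEquiv_apply, map_sum, LinearMap.sum_apply, Finset.sum_eq_single m]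
    · rw [(T l).actEquiv_apply]
    · intro m' _ hm'
      rw [(T l).actEquiv_apply, (hw m' l).1 m (Ne.symm hm') a ha]
    · intro h3
      exact absurd (Finset.mem_range.mpr (by omega)) h3
  refine ⟨∑ m ∈ Finset.range (2 * Z.dim X + 1), w m, ?_⟩
  rintro l i y ⟨h1, h2, h3⟩
  refine ⟨(hsum l i (by omega) y h2).trans ((hw i l).2.2 y h2 h1 h3), fun j hj => ?_⟩
  have hd := hpd l (j + 1) (i + 2 * (j + 1)) i y h2 (by omega)
  exact (hsum l _ (by omega) _ hd).trans ((hw _ l).2.1 i j y h2 h3 rfl hj)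

end Pool.KC
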