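import Pool.Agent.Work.MP_a60482_ind_h42.ToKC

/-!
One rational cycle for the projector onto any set of degrees.
-/

open CategoryTheory MonoidalCategory CartesianMonoidalCategory

universe u v w x y z

namespace Pool.Ind42

variable {V : Type u} [Category.{v} V] [CartesianMonoidalCategory V]

/-- `z` acts as the projector of `H(X)` onto the sum of the `H^i(X)`, `i ∈ S` -/
def IsPrj {K : Type x} [Field K] (D : Pool.Std.WeilCoh.{u, v, w, x} V K) (X : V) (S : Set ℕ)
    (z : D.H (X ⊗ X)) : Prop :=
  (∀ i ∈ S, ∀ a ∈ D.deg X i, D.act z a = a) ∧ ∀ i ∉ S, ∀ a ∈ D.deg X i, D.act z a = 0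

section one

variable {K : Type x} [Field K] {D : Pool.Std.WeilCoh.{u, v, w, x} V K}

/-- the internal theory -/
abbrev thy (h : D.IsWeil) : Pool.KC.WeilTheory.{u, v, w, x} V K :=
  Pool.KC.WeilData.toWeil (toKC_isWeil h)

theorem thy_act (h : D.IsWeil) {X Y : V} (z : D.H (X ⊗ Y)) (a : D.H X) :
    (thy h).act (X := X) (Y := Y) z a = D.act z a :=
  Pool.KC.WeilData.act_eq (toKC_isWeil h) (X := X) (Y := Y) z a

open Classical in
theorem isPrj_iff (h : D.IsWeil) (X : V) (S : Set ℕ) (z : D.H (X ⊗ X)) :
    IsPrj D X S z ↔ z = ∑ i ∈ (Finset.range (2 * D.dim X + 1)).filter (· ∈ S),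
      (thy h).kunnethComponent X i := by
  set A := (Finset.range (2 * D.dim X + 1)).filter (· ∈ S) with hA
  have hact : (thy h).act (X := X) (Y := X) (∑ i ∈ A, (thy h).kunnethComponent X i) =
      ∑ i ∈ A, (thy h).proj X i := by
    have h1 : ∀ (B : Finset ℕ), B ⊆ A →
        (thy h).act (X := X) (Y := X) (∑ i ∈ B, (thy h).kunnethComponent X i) =
          ∑ i ∈ B, (thy h).proj X i := by
      intro B
      induction B using Finset.induction_on with
      | empty => intro _; rw [Finset.sum_empty, Finset.sum_empty, (thy h).act_zero]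
      | insert i B hi ih =>
        intro hB
        rw [Finset.sum_insert hi, Finset.sum_insert hi, (thy h).act_add,
          ih ((Finset.subset_insert i B).trans hB), (thy h).act_kunneth]
        have := Finset.mem_range.mp (Finset.mem_filter.mp (hB (Finset.mem_insert_self i B))).1
        change i ≤ 2 * D.dim X
        omega
    exact h1 A subset_rfl
  have hval : ∀ (i : ℕ) (a : D.H X), a ∈ D.deg X i →
      (∑ k ∈ A, (thy h).proj X k) a = if i ∈ S then a else 0 := by
    intro i a ha
    rw [LinearMap.sum_apply]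
    by_cases hi : i ≤ 2 * D.dim X
    · by_cases hS : i ∈ S
      · rw [if_pos hS, Finset.sum_eq_single i]
        · exact (thy h).proj_same (X := X) ha
        · intro k _ hk
          exact (thy h).proj_ne (X := X) ha (Ne.symm hk)
        · intro h3
          exact absurd (Finset.mem_filter.mpr ⟨Finset.mem_range.mpr (by omega), hS⟩) h3
      · rw [if_neg hS]
        refine Finset.sum_eq_zero fun k hk => (thy h).proj_ne (X := X) ha ?_
        rintro rfl
        exact hS (Finset.mem_filter.mp hk).2
    · have : a = 0 := (thy h).deg_eq_zero (X := X) ha (by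
        change 2 * D.dim X < i
        omega)
      subst this
      rw [Finset.sum_congr rfl fun k _ => map_zero ((thy h).proj X k)]
      simp
  constructor
  · rintro ⟨h1, h2⟩
    apply (thy h).act_injective (X := X) (Y := X)
    rw [hact]
    ext a
    refine (thy h).hind (X := X) (P := fun a => (thy h).act (X := X) (Y := X) z a =
      (∑ k ∈ A, (thy h).proj X k) a) (by rw [map_zero, map_zero]) ?_ ?_ a
    · intro i a ha
      rw [hval i a ha]
      refine (thy_act h (X := X) (Y := X) z a).trans ?_
      split_ifs with hS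
      · exact h1 i hS a ha
      · exact h2 i hS a ha
    · intro a b ha hb
      rw [map_add, map_add, ha, hb]
  · rintro rfl
    have h3 : ∀ (i : ℕ) (a : D.H X), a ∈ D.deg X i →
        D.act (∑ i ∈ A, (thy h).kunnethComponent X i : D.H (X ⊗ X)) a =
          if i ∈ S then a else 0 := by
      intro i a ha
      rw [← hval i a ha, ← hact]
      exact (thy_act h (X := X) (Y := X) _ a).symm
    exact ⟨fun i hi a ha => (h3 i a ha).trans (if_pos hi),
      fun i hi a ha => (h3 i a ha).trans (if_neg hi)⟩

end one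

variable {Z : Pool.KC.CycleTheory.{u, v, y} V} {ι : Type z} {K : ι → Type x}
  [∀ l, Field (K l)] [∀ l, CharZero (K l)] {D : ∀ l, Pool.Std.WeilCoh.{u, v, w, x} V (K l)}

/-- A projector which is in the span of the algebraic classes for one theory is the class of
one rational cycle for all theories. -/
theorem exists_prj (h : ∀ l, (D l).IsWeil)
    (c : ∀ l, Pool.KC.CycleClassMap Z (toKC (D l))) (X : V)
    (hT : ∀ (a : Z.Z (X ⊗ X) (Z.dim X)) (i : ℕ), ∃ q : ℚ, ∀ l,
      (toKC (D l)).traceOn (X := X) i ((c l).cl _ _ a) = (q : K l)) (S : Set ℕ) (o : ι)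
    (z : (D o).H (X ⊗ X)) (hz : z ∈ spn (D o) (X ⊗ X) ((D o).dim X))
    (hS : IsPrj (D o) X S z) :
    ∃ a : Z.Z (X ⊗ X) (Z.dim X), ∀ l, IsPrj (D l) X S ((c l).cl _ _ a) := by
  classical
  have hdim : ∀ l, Z.dim X = (D l).dim X := fun l => (c l).span.dim X
  rw [isPrj_iff (h o)] at hS
  subst hS
  obtain ⟨a, ha⟩ := Pool.KC.exists_cycle_of_traces (T := fun l => thy (h l))
    (fun l => (c l).conv (toKC_isWeil (h l))) X (by
      intro a i
      obtain ⟨q, hq⟩ := hT a i
      refine ⟨q, fun l => ?_⟩
      rw [← hq l, Pool.KC.WeilData.traceOn_eq (toKC_isWeil (h l))]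
      rfl) (S := (Finset.range (2 * Z.dim X + 1)).filter (· ∈ S))
      (Finset.filter_subset _ _) o (by
      rw [hdim o]
      exact hz)
  refine ⟨a, fun l => (isPrj_iff (h l) X S _).mpr ?_⟩
  rw [← hdim l]
  exact ha l

end Pool.Ind42
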