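import Pool.Agent.Work.MP_a60482_ind_h42.FamInv
import Pool.Agent.Work.MP_a60482_ind_h42.Prj

/-!
One rational cycle for the inverse of the hard Lefschetz isomorphism.
-/

open CategoryTheory MonoidalCategory CartesianMonoidalCategory

universe u v w x y z

namespace Pool.KC

section

variable {V : Type u} [Category.{v} V] [CartesianMonoidalCategory V]

theorem WeilTheory.act_fst_mul42 {K : Type x} [Field K] (T : WeilTheory.{u, v, w, x} V K)
    {X Y : V} {k : ℕ} {e : T.H X} (he : e ∈ T.deg X (2 * k)) (z : T.H (X ⊗ Y)) (a : T.H X) :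
    T.act (T.pull (fst X Y) e * z) a = T.act z (e * a) := by
  have h1 : T.pull (fst X Y) (e * a) = T.pull (fst X Y) e * T.pull (fst X Y) a := map_mul _ _ _
  rw [T.act_apply, T.act_apply, h1, ← mul_assoc,
    T.even_comm (T.fst_deg (Y := Y) he) (T.pull (fst X Y) a)]

variable {Z : CycleTheory.{u, v, y} V}
  {ι : Type z} {K : ι → Type x} [∀ l, Field (K l)] {T : ∀ l, WeilTheory.{u, v, w, x} V (K l)}
  (c : ∀ l, CycleClass Z (T l))

include c in
theorem exists_cast {Y : V} {m m' : ℕ} (hm : m = m') (a : Z.Z Y m) :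
    ∃ a' : Z.Z Y m', ∀ l, (c l).cl Y m' a' = (c l).cl Y m a := by
  subst hm
  exact ⟨a, fun _ => rfl⟩

include c in
theorem exists_pow {X : V} (ξ : Z.Z X 1) (k : ℕ) :
    ∃ a : Z.Z X (k + 1), ∀ l, (c l).cl X (k + 1) a = (c l).cl X 1 ξ ^ (k + 1) := by
  induction k with
  | zero => exact ⟨ξ, fun l => (pow_one _).symm⟩
  | succ k ih =>
    obtain ⟨a, ha⟩ := ih
    refine ⟨Z.mul a ξ, fun l => ?_⟩
    rw [(c l).cl_mul, ha l, pow_succ _ (k + 1)]

include c in
theorem exists_comp {X : V} {i : ℕ} (b : Z.Z (X ⊗ X) i) (a : Z.Z (X ⊗ X) (Z.dim X)) :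
    ∃ d : Z.Z (X ⊗ X) i, ∀ l, (c l).cl (X ⊗ X) i d =
      (T l).comp ((c l).cl (X ⊗ X) i b) ((c l).cl (X ⊗ X) (Z.dim X) a) := by
  obtain ⟨m, hm⟩ := exists_cast c (add_comm i (Z.dim X))
    (Z.mul (Z.pull (lift (snd X (X ⊗ X) ≫ fst X X) (fst X (X ⊗ X))) b)
      (Z.pull (lift (fst X (X ⊗ X)) (snd X (X ⊗ X) ≫ snd X X)) a))
  refine ⟨Z.push X (X ⊗ X) i m, fun l => ?_⟩
  rw [(c l).cl_push, hm, (c l).cl_mul, (c l).cl_pull, (c l).cl_pull]
  rfl

/-- the left ideal of the families `act (pr₁^* e * b)` -/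
def famsB (X : V) {i k : ℕ} (e : Z.Z X k) :
    AddSubgroup (∀ l, Module.End (K l) ((T l).H X)) where
  carrier := {r | ∃ b : Z.Z (X ⊗ X) i, r = fun l =>
    (T l).act ((T l).pull (fst X X) ((c l).cl X k e) * (c l).cl _ _ b)}
  add_mem' := by
    rintro _ _ ⟨a, rfl⟩ ⟨b, rfl⟩
    refine ⟨a + b, ?_⟩
    funext l
    rw [Pi.add_apply, map_add, mul_add, (T l).act_add]
  zero_mem' := by
    refine ⟨0, ?_⟩
    funext l
    rw [map_zero, mul_zero, (T l).act_zero]
    rfl
  neg_mem' := by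
    rintro _ ⟨a, rfl⟩
    refine ⟨-a, ?_⟩
    funext l
    rw [Pi.neg_apply, map_neg]
    ext b
    simp [Cohomology.act_apply]

/-- if some class in the span of the algebraic classes inverts `e : H^i → H^(2n-i)` for one
member of the family, then one rational cycle does for all members -/
theorem exists_inv_of_traces [∀ l, CharZero (K l)] (X : V)
    (h : ∀ (a : Z.Z (X ⊗ X) (Z.dim X)) (i : ℕ), ∃ q : ℚ, ∀ l,
      (T l).traceOn i ((c l).cl _ _ a) = (q : K l)) {i k : ℕ} (hik : i + k = Z.dim X)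
    (e : Z.Z X k) (o : ι) (z : (T o).H (X ⊗ X)) (hz : z ∈ (T o).C (X ⊗ X) i)
    (hinv : ∀ a ∈ (T o).deg X i, (T o).act z ((c o).cl X k e * a) = a) :
    ∃ b : Z.Z (X ⊗ X) i, ∀ l, ∀ a ∈ (T l).deg X i,
      (T l).act ((c l).cl _ _ b) ((c l).cl X k e * a) = a := by
  have hdeg : ∀ l, (c l).cl X k e ∈ (T l).deg X (2 * k) := fun l =>
    (T l).C_deg _ _ (by
      rw [← (c l).span_cl]
      exact Submodule.subset_span ⟨e, rfl⟩)
  have hL : ∀ l (z : (T l).H (X ⊗ X)) (a : (T l).H X),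
      (T l).act ((T l).pull (fst X X) ((c l).cl X k e) * z) a =
        (T l).act z ((c l).cl X k e * a) := fun l z a => (T l).act_fst_mul42 (hdeg l) z a
  obtain ⟨r, ⟨b, rfl⟩, hr⟩ := fam_inv (p := fun l => (T l).proj X) (M := 2 * Z.dim X + 1)
      (fun l => by rw [(c l).dim_eq]; exact (T l).projs X) (fams c X) (by
      rintro _ ⟨a, rfl⟩ l i
      exact (T l).ops_mul_proj ((T l).act_mem_ops.mpr ((c l).mem_C a)) i) (by
      rintro _ ⟨a, rfl⟩ i _
      exact h a i) (famsB c X (i := i) e) (by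
      rintro q _ ⟨a, rfl⟩
      refine ⟨q • a, ?_⟩
      funext l
      rw [(c l).cl_smul, mul_smul_comm, (T l).act_smul]) (by
      rintro _ ⟨a, rfl⟩
      obtain ⟨m, hm⟩ := exists_cast c (by omega : k + i = Z.dim X)
        (Z.mul (Z.pull (fst X X) e) a)
      refine ⟨m, ?_⟩
      funext l
      rw [hm, (c l).cl_mul, (c l).cl_pull]) (by
      rintro _ ⟨a, rfl⟩ _ ⟨b, rfl⟩
      obtain ⟨d, hd⟩ := exists_comp c b a
      refine ⟨d, ?_⟩
      funext l
      ext v
      rw [hL l, hd l, (T l).act_comp, Pi.mul_apply, Module.End.mul_apply, hL l]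
      rfl) i (by omega) o
    ((T o).act ((T o).pull (fst X X) ((c o).cl X k e) * z)) (by
      rw [← (c o).span_cl] at hz
      clear hinv
      induction hz using Submodule.span_induction with
      | mem z hz =>
        obtain ⟨a, rfl⟩ := hz
        exact Submodule.subset_span ⟨_, ⟨a, rfl⟩, rfl⟩
      | zero => rw [mul_zero, (T o).act_zero]; exact zero_mem _
      | add z z' _ _ h1 h2 => rw [mul_add, (T o).act_add]; exact add_mem h1 h2
      | smul k z _ h => rw [mul_smul_comm, (T o).act_smul]; exact Submodule.smul_mem _ _ h) (by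
      ext v
      rw [Module.End.mul_apply, hL o]
      exact hinv _ ((T o).proj_mem i v))
  refine ⟨b, fun l a ha => ?_⟩
  have h1 := LinearMap.congr_fun (hr l) a
  rw [Module.End.mul_apply, (T l).proj_same ha, hL l] at h1
  exact h1

end

end Pool.KC
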