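import Pool.Agent.Work.StdConj01.Final

/-!
`Λ` from the projectors and the inverses of the hard Lefschetz isomorphisms.
-/

open CategoryTheory MonoidalCategory CartesianMonoidalCategory

universe u v w x b

namespace Pool.Std

open Pool.KC

variable {V : Type u} [Category.{v} V] [CartesianMonoidalCategory V] {K : Type x} [Field K]
variable {T : WeilTheory.{u, v, w, x} V K} {R : Cyc T}

namespace Pl

variable (G : Pl.{u, v, w, x, b} R)

theorem lefB_of_inverses {X : V} (M : G.Bund X) (hn : 1 ≤ T.dim X) (hπ : R.KunnethC X)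
    (hθ : ∀ i k : ℕ, i + k = T.dim X → ∃ z ∈ R.A (X ⊗ X) i, ∀ a ∈ T.deg X i,
      T.act z (G.c M ^ k * a) = a) : G.LefB M := by
  have hcm : ∀ k, G.c M ^ k ∈ R.A X k := fun k => R.pow (G.c_mem M) k
  have hW : ∀ m : ℕ, ∃ w ∈ R.A (X ⊗ X) (T.dim X - 1),
      (∀ m' : ℕ, m' ≠ m → ∀ a ∈ T.deg X m', T.act w a = 0) ∧
      (∀ (i j : ℕ) (y : T.H X), G.Prim M i y → i + 2 * (j + 1) = m → i + (j + 1) ≤ T.dim X →
        T.act w (G.c M ^ (j + 1) * y) = G.c M ^ j * y) ∧
      ∀ y : T.H X, G.Prim M m y → T.act w y = 0 := by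
    intro m
    obtain ⟨p, hp, hp1, hp2⟩ := hπ m
    by_cases h2 : 2 ≤ m
    · by_cases hmn : m ≤ T.dim X
      · obtain ⟨t, ht, ht1⟩ := hθ (m - 2) (T.dim X - m + 2) (by omega)
        have hact : ∀ a, T.act (T.comp (T.pull (snd X X) (G.c M ^ (T.dim X - m + 1)) * p) t) a =
            T.act t (G.c M ^ (T.dim X - m + 1) * T.act p a) := by
          intro a
          rw [T.act_comp, LinearMap.comp_apply, T.act_snd_mul (R.deg (hcm _))]
        refine ⟨T.comp (T.pull (snd X X) (G.c M ^ (T.dim X - m + 1)) * p) t,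
          R.comp_mem (R.mul (R.pull _ (hcm _)) hp) ht (k := T.dim X - 1) (by omega) rfl,
          ?_, ?_, ?_⟩
        · intro m' hm' a ha
          rw [hact, hp2 m' hm' a ha, mul_zero, map_zero]
        · intro i j y hy hij hij2
          have hd : G.c M ^ (j + 1) * y ∈ T.deg X m :=
            T.deg_of_eq (T.mul_deg (R.deg (hcm (j + 1))) hy.2.1) (by omega)
          rw [hact, hp1 _ hd, ← mul_assoc, ← pow_add,
            show T.dim X - m + 1 + (j + 1) = T.dim X - m + 2 + j by omega, pow_add, mul_assoc]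
          exact ht1 _ (T.deg_of_eq (T.mul_deg (R.deg (hcm j)) hy.2.1) (by omega))
        · intro y hy
          rw [hact, hp1 _ hy.2.1, hy.pow_eq_zero (by omega), map_zero]
      · by_cases hm2 : m ≤ 2 * T.dim X
        · obtain ⟨t, ht, ht1⟩ := hθ (2 * T.dim X - m) (m - T.dim X) (by omega)
          have hact : ∀ a, T.act (T.pull (snd X X) (G.c M ^ (m - T.dim X - 1)) *
              T.comp p t) a = G.c M ^ (m - T.dim X - 1) * T.act t (T.act p a) := by
            intro a
            rw [T.act_snd_mul (R.deg (hcm _)), T.act_comp, LinearMap.comp_apply]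
          refine ⟨T.pull (snd X X) (G.c M ^ (m - T.dim X - 1)) * T.comp p t,
            R.of_eq (R.mul (R.pull _ (hcm _)) (R.comp_mem hp ht
              (k := 2 * T.dim X - m) (by omega) rfl)) (by omega), ?_, ?_, ?_⟩
          · intro m' hm' a ha
            rw [hact, hp2 m' hm' a ha, map_zero, mul_zero]
          · intro i j y hy hij hij2
            have hd : G.c M ^ (j + 1) * y ∈ T.deg X m :=
              T.deg_of_eq (T.mul_deg (R.deg (hcm (j + 1))) hy.2.1) (by omega)
            have hs : G.c M ^ (T.dim X - i - j - 1) * y ∈ T.deg X (2 * T.dim X - m) :=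
              T.deg_of_eq (T.mul_deg (R.deg (hcm (T.dim X - i - j - 1))) hy.2.1) (by omega)
            have he : G.c M ^ (j + 1) * y =
                G.c M ^ (m - T.dim X) * (G.c M ^ (T.dim X - i - j - 1) * y) := by
              rw [← mul_assoc, ← pow_add]
              congr 2
              omega
            rw [hact, hp1 _ hd, he, ht1 _ hs, ← mul_assoc, ← pow_add]
            congr 2
            omega
          · intro y hy
            exact absurd hy.1 (by omega)
        · refine ⟨0, zero_mem _, fun _ _ a _ => by rw [T.act_zero]; rfl, ?_, ?_⟩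
          · intro i j y _ h1 h2
            omega
          · intro y hy
            exact absurd hy.1 (by omega)
    · refine ⟨0, zero_mem _, fun _ _ a _ => by rw [T.act_zero]; rfl, ?_, ?_⟩
      · intro i j y _ h1 h2
        omega
      · intro y hy
        rw [T.act_zero]
        rfl
  choose w hw hw1 hw2 hw3 using hW
  have hsum : ∀ m ≤ 2 * T.dim X, ∀ a ∈ T.deg X m,
      T.act (∑ m ∈ Finset.range (2 * T.dim X + 1), w m) a = T.act (w m) a := by
    intro m hm a ha
    rw [← T.actEquiv_apply, map_sum, LinearMap.sum_apply, Finset.sum_eq_single m]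
    · rw [T.actEquiv_apply]
    · intro m' _ hm'
      rw [T.actEquiv_apply, hw1 m' m (Ne.symm hm') a ha]
    · intro h3
      exact absurd (Finset.mem_range.mpr (by omega)) h3
  refine ⟨∑ m ∈ Finset.range (2 * T.dim X + 1), w m, sum_mem fun m _ => hw m, ?_⟩
  intro i y hy
  have h1 := hy.1
  refine ⟨(hsum i (by omega) y hy.2.1).trans (hw3 i y hy), fun j hj => ?_⟩
  have hd : G.c M ^ (j + 1) * y ∈ T.deg X (i + 2 * (j + 1)) :=
    T.deg_of_eq (T.mul_deg (R.deg (hcm (j + 1))) hy.2.1) (by omega)
  exact (hsum _ (by omega) _ hd).trans (hw2 _ i j y hy rfl hj)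

end Pl

end Pool.Std
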