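import Pool.Agent.Work.MP_a60482_kc.FamAlg

/-!
Families of left inverses.
-/

namespace Pool.KC

universe z x w

variable {ι : Type z} {K : ι → Type x} {H : ι → Type w} [∀ l, Field (K l)]
  [∀ l, AddCommGroup (H l)] [∀ l, Module (K l) (H l)] [∀ l, FiniteDimensional (K l) (H l)]
  [∀ l, CharZero (K l)] {p : ∀ l, ℕ → Module.End (K l) (H l)} {M : ℕ}

/-- Let `R` be a ring of families of endomorphisms, closed under multiplication by rational
numbers, with rational traces, independent of the member, on the pieces of the gradings, and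
`B` a left ideal of `R`, closed under multiplication by rational numbers.  If for one member
`o` some element `β` of the span of the components of `B` is the identity on the piece `i`,
then there is an element `b` of `B` all of whose components are the identity on the piece
`i`. -/
theorem fam_inv (hp : ∀ l, Projs (p l) M) (R : Subring (∀ l, Module.End (K l) (H l)))
    (hc : ∀ r ∈ R, ∀ l i, r l * p l i = p l i * r l)
    (htr : ∀ r ∈ R, ∀ i < M, ∃ q : ℚ, ∀ l,
      LinearMap.trace (K l) (H l) (r l * p l i) = (q : K l))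
    (B : AddSubgroup (∀ l, Module.End (K l) (H l)))
    (hBq : ∀ (q : ℚ), ∀ r ∈ B, (fun l => (q : K l) • r l) ∈ B)
    (hBR : ∀ r ∈ B, r ∈ R) (hRB : ∀ r ∈ R, ∀ b ∈ B, r * b ∈ B)
    (i : ℕ) (hi : i < M) (o : ι) (β : Module.End (K o) (H o)) (h : β ∈ Submodule.span (K o)
      ((fun r : ∀ l, Module.End (K l) (H l) => r o) '' (B : Set (∀ l, Module.End (K l) (H l)))))
    (hβ : β * p o i = p o i) : ∃ b ∈ B, ∀ l, b l * p l i = p l i := by
  classical
  obtain ⟨ρ, hρ⟩ := exists_retraction (K o)
  have hρm : ∀ (k : K o) (q : ℚ), ρ (k * (q : K o)) = ρ k * q := by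
    intro k q
    have : k * (q : K o) = q • k := by
      rw [Rat.smul_def, mul_comm]
    rw [this, map_smul, smul_eq_mul, mul_comm]
  rw [Finsupp.mem_span_image_iff_linearCombination] at h
  obtain ⟨c, hcB, hcp⟩ := h
  have hlB : ∀ m ∈ c.support, m ∈ B := fun m hm => hcB hm
  set x : ∀ l, Module.End (K l) (H l) :=
    ∑ m ∈ c.support, (fun l => ((ρ (c m) : ℚ) : K l) • m l) with hx
  have hxB : x ∈ B := sum_mem fun m hm => hBq _ m (hlB m hm)
  have hxR : x ∈ R := hBR x hxB
  have hxl : ∀ l, x l = ∑ m ∈ c.support, ((ρ (c m) : ℚ) : K l) • m l := by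
    intro l
    rw [hx, Finset.sum_apply]
  have hpj : β = ∑ m ∈ c.support, c m • m o := by
    rw [← hcp, Finsupp.linearCombination_apply]
    rfl
  have hkey : ∀ s ∈ R, ∀ l, LinearMap.trace (K l) (H l) (s l * x l * p l i) =
      LinearMap.trace (K l) (H l) (s l * p l i) := by
    intro s hs
    obtain ⟨q, hq⟩ := htr s hs i hi
    have hex : ∀ m : (∀ l, Module.End (K l) (H l)), ∃ t : ℚ, m ∈ c.support →
        ∀ l, LinearMap.trace (K l) (H l) (s l * m l * p l i) = (t : K l) := by
      intro m
      by_cases hm : m ∈ c.support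
      · obtain ⟨t, ht⟩ := htr (s * m) (mul_mem hs (hBR m (hlB m hm))) i hi
        exact ⟨t, fun _ => ht⟩
      · exact ⟨0, fun h => absurd h hm⟩
    choose t ht using hex
    have h1 : ∑ m ∈ c.support, c m * (t m : K o) = (q : K o) := by
      have h2 : LinearMap.trace (K o) (H o) (s o * β * p o i) = (q : K o) := by
        rw [mul_assoc, hβ, hq]
      rw [← h2, hpj, Finset.mul_sum, Finset.sum_mul, map_sum]
      apply Finset.sum_congr rfl
      intro m hm
      rw [mul_smul_comm, smul_mul_assoc, map_smul, ht m hm o, smul_eq_mul]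
    have h3 : ∑ m ∈ c.support, ρ (c m) * t m = q := by
      have := congrArg ρ h1
      rw [map_sum] at this
      rw [Finset.sum_congr rfl fun m _ => (hρm (c m) (t m)).symm, this]
      exact hρ q
    intro l
    rw [hxl, Finset.mul_sum, Finset.sum_mul, map_sum, hq l]
    have : ∀ m ∈ c.support, LinearMap.trace (K l) (H l)
        (s l * ((ρ (c m) : ℚ) : K l) • m l * p l i) = ((ρ (c m) * t m : ℚ) : K l) := by
      intro m hm
      rw [mul_smul_comm, smul_mul_assoc, map_smul, ht m hm l, smul_eq_mul]
      push_cast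
      rfl
    rw [Finset.sum_congr rfl this, ← Rat.cast_sum, h3]
  set d := Module.finrank (K o) (H o) + 1 with hd
  have hfin : ∀ l, Module.finrank (K l) (H l) ≤ d := by
    intro l
    rw [finrank_eq_of_traces hp (fun i hi => ?_) l o]
    · omega
    · obtain ⟨q, hq⟩ := htr 1 (one_mem R) i hi
      refine ⟨q, fun l => ?_⟩
      rw [← hq l, Pi.one_apply, one_mul]
  set g : ∀ l, Module.End (K l) (H l) := 1 - x with hg
  have hgR : g ∈ R := sub_mem (one_mem R) hxR
  have hnil : ∀ l, (g ^ d) l * p l i = 0 := by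
    intro l
    have hn : IsNilpotent (g l * p l i) := by
      apply isNilpotent_of_trace
      intro k hk
      rw [commute_pow_proj (hc g hgR l i) ((hp l).idem i) k hk]
      obtain ⟨m, rfl⟩ : ∃ m, k = m + 1 := ⟨k - 1, by omega⟩
      have h1 := hkey (g ^ m) (pow_mem hgR m) l
      rw [pow_succ]
      have h2 : g l = 1 - x l := rfl
      have h3 : g l ^ m = (g ^ m) l := rfl
      rw [h3]
      rw [h2, mul_sub, mul_one, sub_mul, map_sub, h1, sub_self]
    have h4 := pow_eq_zero_of_nilpotent hn (hfin l)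
    rw [commute_pow_proj (hc g hgR l i) ((hp l).idem i) d (by omega)] at h4
    exact h4
  set u : ∀ l, Module.End (K l) (H l) := ∑ k ∈ Finset.range d, g ^ k with hu
  have huR : u ∈ R := sum_mem fun k _ => pow_mem hgR k
  have hux : u * x = 1 - g ^ d := by
    have h1 : x = 1 - g := by rw [hg, sub_sub_cancel]
    have h2 := geom_sum_mul_neg g d
    rw [hu, h1]
    exact h2
  refine ⟨u * x, hRB u huR x hxB, fun l => ?_⟩
  rw [hux]
  have h5 : ((1 : ∀ l, Module.End (K l) (H l)) - g ^ d) l = 1 - (g ^ d) l := rfl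
  rw [h5, sub_mul, one_mul, hnil l, sub_zero]

end Pool.KC
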