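import Pool.Agent.Work.StdConj.Api
import Pool.Agent.Work.MP_a60482_kc.Fam

/-!
Weil cohomology theories in the sense of `Pool.Std` as `Pool.KC.WeilData`.
-/

open CategoryTheory MonoidalCategory CartesianMonoidalCategory

universe u v w x y z

namespace Pool.Ind42

variable {V : Type u} [Category.{v} V] [CartesianMonoidalCategory V] {K : Type x} [Field K]

/-- the same graded algebra -/
@[reducible] def grAlg (R : Pool.Std.GrAlg.{w, x} K) : Pool.KC.GrAlg.{w, x} K where
  A := R.A
  ring := R.ring
  alg := R.alg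
  fin := R.fin
  deg := R.deg
  grad := R.grad
  comm := R.comm

/-- the `K`-span of the algebraic classes -/
def spn (D : Pool.Std.WeilCoh.{u, v, w, x} V K) (X : V) (i : ℕ) : Submodule K (D.H X) :=
  Submodule.span K (D.alg X i : Set (D.H X))

/-- The same data, with the `K`-spans of the algebraic classes. -/
@[reducible] def toKC (D : Pool.Std.WeilCoh.{u, v, w, x} V K) :
    Pool.KC.WeilData.{u, v, w, x} V K where
  dim := D.dim
  R X := grAlg (D.R X)
  pull f := D.pull f
  tr X := D.tr X
  push X Y := D.push X Y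
  C X i := spn D X i
  diag X := D.diag X

variable {D : Pool.Std.WeilCoh.{u, v, w, x} V K}

theorem spn_deg (h : D.IsWeil) (X : V) (i : ℕ) : spn D X i ≤ D.deg X (2 * i) :=
  Submodule.span_le.mpr (h.cycle.deg X i)

theorem mem_spn {X : V} {i : ℕ} {a : D.H X} (ha : a ∈ D.alg X i) : a ∈ spn D X i :=
  Submodule.subset_span ha

theorem spn_mul (h : D.IsWeil) (X : V) (i j : ℕ) (a : D.H X) (ha : a ∈ spn D X i) (b : D.H X)
    (hb : b ∈ spn D X j) : a * b ∈ spn D X (i + j) := by
  unfold spn at ha
  induction ha using Submodule.span_induction with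
  | mem x hx =>
    unfold spn at hb
    induction hb using Submodule.span_induction with
    | mem y hy => exact mem_spn (h.cycle.mul X i j x hx y hy)
    | zero => rw [mul_zero]; exact zero_mem _
    | add y y' _ _ h1 h2 => rw [mul_add]; exact add_mem h1 h2
    | smul k y _ h1 => rw [mul_smul_comm]; exact Submodule.smul_mem _ _ h1
  | zero => rw [zero_mul]; exact zero_mem _
  | add y y' _ _ h1 h2 => rw [add_mul]; exact add_mem h1 h2
  | smul k y _ h1 => rw [smul_mul_assoc]; exact Submodule.smul_mem _ _ h1

theorem spn_pull (h : D.IsWeil) (X Y : V) (f : X ⟶ Y) (i : ℕ) (a : D.H Y)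
    (ha : a ∈ spn D Y i) : D.pull f a ∈ spn D X i := by
  unfold spn at ha
  induction ha using Submodule.span_induction with
  | mem x hx => exact mem_spn (h.functor.pull X Y f i x hx)
  | zero => rw [map_zero]; exact zero_mem _
  | add x y _ _ hx hy => rw [map_add]; exact add_mem hx hy
  | smul k x _ hx => rw [map_smul]; exact Submodule.smul_mem _ _ hx

theorem spn_push (h : D.IsWeil) (X Y : V) (i : ℕ) (a : D.H (X ⊗ Y))
    (ha : a ∈ spn D (X ⊗ Y) (D.dim X + i)) : D.push X Y a ∈ spn D Y i := by
  unfold spn at ha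
  induction ha using Submodule.span_induction with
  | mem x hx => exact mem_spn (h.functor.push X Y i x hx)
  | zero => rw [map_zero]; exact zero_mem _
  | add x y _ _ hx hy => rw [map_add]; exact add_mem hx hy
  | smul k x _ hx => rw [map_smul]; exact Submodule.smul_mem _ _ hx

theorem toKC_isWeil (h : D.IsWeil) : (toKC D).IsWeil where
  pull := ⟨h.pull.id, h.pull.comp, h.pull.deg⟩
  kunneth := ⟨h.kunneth.dim, h.kunneth.span, h.kunneth.finrank, h.kunneth.push⟩
  trace := ⟨h.trace.deg, h.trace.duality, h.trace.cross, h.trace.iso⟩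
  cycle := ⟨spn_deg h, fun X => mem_spn (h.cycle.one X), spn_mul h⟩
  functor := ⟨spn_pull h, spn_push h⟩
  diagonal := ⟨fun X => mem_spn (h.diagonal.mem X), h.diagonal.spec⟩

theorem toKC_act (D : Pool.Std.WeilCoh.{u, v, w, x} V K) {X Y : V} (z : D.H (X ⊗ Y))
    (a : D.H X) : (toKC D).act (X := X) (Y := Y) z a = D.act z a := rfl

end Pool.Ind42
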